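import Mathlib

/-! Hausdorff approximation of plane sets by spline curves with free knots: definitions.
The plane is `ℝ × ℝ`, whose metric is the box metric. -/

namespace Pool.Agent.Lib.MP_04cb70_an

/-- spline functions of order `(k, n)` on `[0, 1]` with free knots -/
def IsSpline (k n : ℕ) (s : ℝ → ℝ) : Prop :=
  ContDiffOn ℝ ((k - 1 : ℕ) : WithTop ℕ∞) s (Set.Icc 0 1) ∧
    ∃ t : Fin (n + 1) → ℝ, StrictMono t ∧ t 0 = 0 ∧ t (Fin.last n) = 1 ∧
      ∀ i : Fin n, ∃ p : Polynomial ℝ, p.natDegree ≤ k ∧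
        ∀ x ∈ Set.Icc (t i.castSucc) (t i.succ), s x = p.eval x

/-- spline curves of order `(k, n)`; each coordinate has its own knots -/
def splineCurves (k n : ℕ) : Set (Set (ℝ × ℝ)) :=
  {γ | ∃ φ ψ : ℝ → ℝ, IsSpline k n φ ∧ IsSpline k n ψ ∧
    γ = (fun t ↦ (φ t, ψ t)) '' Set.Icc 0 1}

/-- best Hausdorff approximation of the set `F` by members of `W` -/
noncomputable def bestApprox (W : Set (Set (ℝ × ℝ))) (F : Set (ℝ × ℝ)) : ℝ :=
  sInf ((fun γ ↦ Metric.hausdorffDist F γ) '' W)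

/-- best Hausdorff approximation of the family `𝓕` by members of `W` -/
noncomputable def classApprox (W 𝓕 : Set (Set (ℝ × ℝ))) : ℝ :=
  sSup (bestApprox W '' 𝓕)

/-- nonempty compact connected subsets of the square `[a, b] × [a, b]` -/
def continua (a b : ℝ) : Set (Set (ℝ × ℝ)) :=
  {F | IsCompact F ∧ IsConnected F ∧ F ⊆ Set.Icc a b ×ˢ Set.Icc a b}

end Pool.Agent.Lib.MP_04cb70_an
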