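import Pool.Agent.Lib.MP_04cb70_an.Zigzag

/-! Lower bounds: isolated upward tips force oscillation; the comb. -/

open Set Metric

namespace Pool.Agent.Lib.MP_04cb70_an

lemma exit_tip {F : Set (ℝ × ℝ)} {h : ℝ} {p : ℝ × ℝ}
    (h3 : ∀ w ∈ F, |w.1 - p.1| < h → |w.2 - p.2| < h → w.1 = p.1 ∧ w.2 ≤ p.2)
    {g : ℝ → ℝ × ℝ} {s u : ℝ} (hg : ContinuousOn g (uIcc s u))
    (hF : ∀ t ∈ uIcc s u, ∃ w ∈ F, dist (g t) w < h / 2)
    (hs : dist (g s) p < h / 2) (hu : h / 2 ≤ dist (g u) p) :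
    ∃ v ∈ uIcc s u, (g v).2 < (g s).2 := by
  have hc : ContinuousOn (fun t ↦ dist (g t) p) (uIcc s u) :=
    (continuous_id.dist continuous_const).comp_continuousOn hg
  obtain ⟨v, hv, hv'⟩ := intermediate_value_uIcc hc (show h / 2 ∈ uIcc _ _ from
    mem_uIcc.2 (Or.inl ⟨hs.le, hu⟩))
  refine ⟨v, hv, ?_⟩
  obtain ⟨w, hw, hw'⟩ := hF v hv
  simp only [Prod.dist_eq, Real.dist_eq, max_lt_iff] at hw' hs hv'
  by_contra hcon
  push Not at hcon
  have e1 : |(g v).1 - p.1| ≤ h / 2 := hv' ▸ le_max_left _ _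
  have e2 : |(g v).2 - p.2| ≤ h / 2 := hv' ▸ le_max_right _ _
  obtain ⟨a1, a2⟩ := abs_lt.1 hw'.1
  obtain ⟨a3, a4⟩ := abs_lt.1 hw'.2
  obtain ⟨a5, a6⟩ := abs_le.1 e1
  obtain ⟨a7, a8⟩ := abs_le.1 e2
  obtain ⟨a9, a10⟩ := abs_lt.1 hs.2
  obtain ⟨b1, b2⟩ := h3 w hw (abs_lt.2 ⟨by linarith, by linarith⟩)
    (abs_lt.2 ⟨by linarith, by linarith⟩)
  have e3 : max |(g v).1 - p.1| |(g v).2 - p.2| < h / 2 :=
    max_lt (abs_lt.2 ⟨by linarith, by linarith⟩) (abs_lt.2 ⟨by linarith, by linarith⟩)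
  exact absurd hv' e3.ne

theorem tips_lower {F : Set (ℝ × ℝ)} (hF : IsCompact F) {h : ℝ} (P : Finset (ℝ × ℝ))
    (hPF : ∀ p ∈ P, p ∈ F)
    (h3 : ∀ p ∈ P, ∀ w ∈ F, |w.1 - p.1| < h → |w.2 - p.2| < h → w.1 = p.1 ∧ w.2 ≤ p.2)
    {k n : ℕ} (hcard : n + k + 2 < 2 * P.card) {γ : Set (ℝ × ℝ)}
    (hγ : γ ∈ splineCurves (k + 1) n) : h / 2 ≤ hausdorffDist F γ := by
  classical
  obtain ⟨φ, ψ, hφ, hψ, rfl⟩ := hγ
  set g : ℝ → ℝ × ℝ := fun t ↦ (φ t, ψ t) with hg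
  have hgc : ContinuousOn g (Icc 0 1) := hφ.1.continuousOn.prodMk hψ.1.continuousOn
  have hPne : P.Nonempty := Finset.card_pos.1 (by omega)
  have hFne : F.Nonempty := let ⟨p, hp⟩ := hPne; ⟨p, hPF p hp⟩
  have hfin : hausdorffEDist F (g '' Icc 0 1) ≠ ⊤ :=
    hausdorffEDist_ne_top_of_nonempty_of_bounded hFne
      ((nonempty_Icc.2 zero_le_one).image _) hF.isBounded
      (isCompact_Icc.image_of_continuousOn hgc).isBounded
  by_contra hcon
  push Not at hcon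
  have hex : ∀ p ∈ P, ∃ t ∈ Icc (0 : ℝ) 1, dist (g t) p < h / 2 := by
    intro p hp
    obtain ⟨_, ⟨t, ht, rfl⟩, hd⟩ := exists_dist_lt_of_hausdorffDist_lt (hPF p hp) hcon hfin
    exact ⟨t, ht, by rwa [dist_comm]⟩
  choose! τ hτ hτ' using hex
  have hnear : ∀ t ∈ Icc (0 : ℝ) 1, ∃ w ∈ F, dist (g t) w < h / 2 := by
    intro t ht
    obtain ⟨w, hw, hd⟩ := exists_dist_lt_of_hausdorffDist_lt' (mem_image_of_mem g ht) hcon hfin
    exact ⟨w, hw, by rwa [dist_comm]⟩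
  have hsep : ∀ p ∈ P, ∀ q ∈ P, p ≠ q → h / 2 ≤ dist (g (τ q)) p := by
    intro p hp q hq hne
    by_contra hlt
    push Not at hlt
    have e1 : dist q p < h := by
      have := dist_triangle_left q p (g (τ q))
      have := hτ' q hq
      linarith
    have e2 : dist p q < h := by rwa [dist_comm]
    simp only [Prod.dist_eq, Real.dist_eq, max_lt_iff] at e1 e2
    obtain ⟨a1, a2⟩ := h3 p hp q (hPF q hq) e1.1 e1.2
    obtain ⟨-, a3⟩ := h3 q hq p (hPF p hp) e2.1 e2.2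
    exact hne (Prod.ext a1.symm (le_antisymm a3 a2))
  have hinj : InjOn τ P := by
    intro p hp q hq he
    by_contra hne
    have e1 := hsep p hp q hq hne
    have e2 := hτ' p hp
    rw [he] at e2
    linarith
  have hzig := zig_of_peaks (f := ψ) (P.image τ) (by
      intro t ht
      obtain ⟨p, hp, rfl⟩ := Finset.mem_image.1 ht
      exact hτ p hp) (hPne.image τ) (by
      intro s hs u hu hsu
      obtain ⟨p, hp, rfl⟩ := Finset.mem_image.1 hs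
      obtain ⟨q, hq, rfl⟩ := Finset.mem_image.1 hu
      have hne : p ≠ q := fun h ↦ by rw [h] at hsu; exact lt_irrefl _ hsu
      have hsub : uIcc (τ p) (τ q) ⊆ Icc (0 : ℝ) 1 := uIcc_subset_Icc (hτ p hp) (hτ q hq)
      have hsub' : uIcc (τ q) (τ p) ⊆ Icc (0 : ℝ) 1 := uIcc_subset_Icc (hτ q hq) (hτ p hp)
      obtain ⟨v, hv, hv'⟩ := exit_tip (h3 p hp) (hgc.mono hsub) (fun t ht ↦ hnear t (hsub ht))
        (hτ' p hp) (hsep p hp q hq hne)
      obtain ⟨w, hw, hw'⟩ := exit_tip (h3 q hq) (hgc.mono hsub') (fun t ht ↦ hnear t (hsub' ht))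
        (hτ' q hq) (hsep q hq p hp hne.symm)
      rw [uIcc_of_le hsu.le] at hv
      rw [uIcc_of_ge hsu.le] at hw
      simp only [hg] at hv' hw'
      rcases le_total (ψ v) (ψ w) with h1 | h1
      · exact ⟨v, hv, hv', h1.trans_lt hw'⟩
      · exact ⟨w, hw, h1.trans_lt hv', hw'⟩)
  have := zig_le hψ hzig
  rw [Finset.card_image_of_injOn hinj] at this
  omega

/-- one tooth of the comb together with its row and the left side -/
def piece (a b h : ℝ) (r j : ℕ) : Set (ℝ × ℝ) :=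
  ({a} ×ˢ Icc a b ∪ Icc a b ×ˢ {a + 2 * r * h}) ∪
    {a + (j + 1) * h} ×ˢ Icc (a + 2 * r * h) (a + (2 * r + 1) * h)

theorem comb_lower {a b : ℝ} (hab : a < b) {m : ℕ} (hm : 0 < m) :
    ∃ F ∈ continua a b, ∀ k n : ℕ, n + k + 2 < 4 * m ^ 2 →
      ∀ γ ∈ splineCurves (k + 1) n, (b - a) / (4 * m) ≤ hausdorffDist F γ := by
  classical
  have hm' : (0 : ℝ) < m := by exact_mod_cast hm
  set h : ℝ := (b - a) / (2 * m) with hh
  have hh0 : 0 < h := div_pos (sub_pos.2 hab) (by positivity)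
  have hb : b = a + 2 * m * h := by rw [hh]; field_simp; ring
  set I : Finset (ℕ × ℕ) := Finset.range m ×ˢ Finset.range (2 * m) with hI
  have hIm : ∀ x ∈ I, (x.1 : ℝ) + 1 ≤ m ∧ (x.2 : ℝ) + 1 ≤ 2 * m := by
    intro x hx
    simp only [hI, Finset.mem_product, Finset.mem_range] at hx
    exact ⟨by exact_mod_cast hx.1, by exact_mod_cast hx.2⟩
  have hy : ∀ x ∈ I, a + 2 * x.1 * h ∈ Icc a b ∧ a + (2 * x.1 + 1) * h ∈ Icc a b ∧
      a + (x.2 + 1) * h ∈ Icc a b := by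
    intro x hx
    obtain ⟨e1, e2⟩ := hIm x hx
    have e3 : (0 : ℝ) ≤ x.1 := Nat.cast_nonneg _
    have e4 : (0 : ℝ) ≤ x.2 := Nat.cast_nonneg _
    rw [hb]
    refine ⟨⟨?_, ?_⟩, ⟨?_, ?_⟩, ⟨?_, ?_⟩⟩ <;> nlinarith
  set F : Set (ℝ × ℝ) := ⋃ x ∈ I, piece a b h x.1 x.2 with hF
  have hFc : IsCompact F := I.isCompact_biUnion fun x _ ↦
    ((isCompact_singleton.prod isCompact_Icc).union (isCompact_Icc.prod isCompact_singleton)).union
      (isCompact_singleton.prod isCompact_Icc)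
  have haa : ∀ r j, (a, a) ∈ piece a b h r j := fun r j ↦ Or.inl (Or.inl ⟨rfl, le_rfl, hab.le⟩)
  have h0I : ((0, 0) : ℕ × ℕ) ∈ I := by simp [hI, hm]
  refine ⟨F, ⟨hFc, ⟨⟨(a, a), mem_iUnion₂.2 ⟨_, h0I, haa _ _⟩⟩, ?_⟩, ?_⟩, fun k n hn γ hγ ↦ ?_⟩
  · refine isPreconnected_of_forall (a, a) fun w hw ↦ ?_
    obtain ⟨x, hx, hw⟩ := mem_iUnion₂.1 hw
    refine ⟨piece a b h x.1 x.2, subset_biUnion_of_mem (u := fun x : ℕ × ℕ ↦ piece a b h x.1 x.2)
      (show x ∈ (I : Set (ℕ × ℕ)) from hx), haa _ _, hw, ?_⟩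
    obtain ⟨e1, e2, e3⟩ := hy x hx
    refine IsPreconnected.union (a + (x.2 + 1) * h, a + 2 * x.1 * h) (Or.inr ⟨e3, rfl⟩)
      ⟨rfl, le_rfl, by simp only; nlinarith⟩ ?_
      (isPreconnected_singleton.prod isPreconnected_Icc)
    exact IsPreconnected.union (a, a + 2 * x.1 * h) ⟨rfl, e1⟩ ⟨⟨le_rfl, hab.le⟩, rfl⟩
      (isPreconnected_singleton.prod isPreconnected_Icc)
      (isPreconnected_Icc.prod isPreconnected_singleton)
  · intro w hw
    obtain ⟨x, hx, hw⟩ := mem_iUnion₂.1 hw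
    obtain ⟨e1, e2, e3⟩ := hy x hx
    rcases hw with (⟨h1, h2⟩ | ⟨h1, h2⟩) | ⟨h1, h2⟩
    · exact ⟨by rw [mem_singleton_iff.1 h1]; exact ⟨le_rfl, hab.le⟩, h2⟩
    · exact ⟨h1, by rw [mem_singleton_iff.1 h2]; exact e1⟩
    · exact ⟨by rw [mem_singleton_iff.1 h1]; exact e3, e1.1.trans h2.1, h2.2.trans e2.2⟩
  · have e0 : (b - a) / (4 * m) = h / 2 := by rw [hh]; field_simp; ring
    rw [e0]
    set tip : ℕ × ℕ → ℝ × ℝ := fun x ↦ (a + (x.2 + 1) * h, a + (2 * x.1 + 1) * h) with htip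
    have hinj : Function.Injective tip := by
      intro x y hxy
      simp only [htip, Prod.mk.injEq, add_right_inj, mul_eq_mul_right_iff, hh0.ne', or_false,
        add_left_inj, Nat.cast_inj, mul_eq_mul_left_iff, OfNat.ofNat_ne_zero] at hxy
      exact Prod.ext hxy.2 hxy.1
    refine tips_lower hFc (I.image tip) ?_ ?_ (k := k) (n := n) ?_ hγ
    · intro p hp
      obtain ⟨x, hx, rfl⟩ := Finset.mem_image.1 hp
      exact mem_iUnion₂.2 ⟨x, hx, Or.inr ⟨rfl, by simp only [htip]; nlinarith, le_rfl⟩⟩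
    · intro p hp w hw h1 h2
      obtain ⟨x, hx, rfl⟩ := Finset.mem_image.1 hp
      obtain ⟨y, -, hw⟩ := mem_iUnion₂.1 hw
      simp only [htip] at h1 h2 ⊢
      obtain ⟨a1, a2⟩ := abs_lt.1 h1
      obtain ⟨a3, a4⟩ := abs_lt.1 h2
      have e4 : (0 : ℝ) ≤ x.2 := Nat.cast_nonneg _
      rcases hw with (⟨c1, -⟩ | ⟨-, c2⟩) | ⟨c1, c2⟩
      · rw [mem_singleton_iff.1 c1] at a1
        nlinarith
      · rw [mem_singleton_iff.1 c2] at a3 a4
        have d1 : (x.1 : ℝ) < y.1 := by nlinarith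
        have d2 : (y.1 : ℝ) < x.1 + 1 := by nlinarith
        have d1' : x.1 < y.1 := by exact_mod_cast d1
        have d2' : y.1 < x.1 + 1 := by exact_mod_cast d2
        omega
      · have c1' := mem_singleton_iff.1 c1
        rw [c1'] at a1 a2
        have d1 : (x.2 : ℝ) < y.2 + 1 := by nlinarith
        have d2 : (y.2 : ℝ) < x.2 + 1 := by nlinarith
        have d1' : x.2 < y.2 + 1 := by exact_mod_cast d1
        have d2' : y.2 < x.2 + 1 := by exact_mod_cast d2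
        have d3 : y.2 = x.2 := by omega
        have d4 : (y.1 : ℝ) < x.1 + 1 := by nlinarith [c2.1]
        have d4' : y.1 < x.1 + 1 := by exact_mod_cast d4
        have d5 : (y.1 : ℝ) ≤ x.1 := by exact_mod_cast Nat.lt_succ_iff.1 d4'
        exact ⟨by rw [c1', d3], by nlinarith [c2.2]⟩
    · rw [Finset.card_image_of_injective _ hinj, hI, Finset.card_product, Finset.card_range,
        Finset.card_range]
      nlinarith

end Pool.Agent.Lib.MP_04cb70_an
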