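import Pool.Agent.Lib.MP_04cb70_an.Defs

/-! Spline curves that follow a polygon, one knot for each move of each coordinate:
every move is much faster than the previous ones. -/

open Set Metric Filter Topology

namespace Pool.Agent.Lib.MP_04cb70_an

lemma hasDerivAt_tp (k : ℕ) (T x : ℝ) : HasDerivAt (fun t ↦ max (t - T) 0 ^ (k + 2))
    ((k + 2 : ℕ) * max (x - T) 0 ^ (k + 1)) x := by
  have hp : ∀ y, HasDerivAt (fun t ↦ (t - T) ^ (k + 2)) ((k + 2 : ℕ) * (y - T) ^ (k + 1)) y := by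
    intro y
    simpa using ((hasDerivAt_id y).sub_const T).fun_pow (k + 2)
  have hl : ∀ t ∈ Iic T, max (t - T) 0 ^ (k + 2) = 0 := fun t ht ↦ by
    rw [max_eq_right (sub_nonpos.2 ht)]; simp
  have hr : ∀ t ∈ Ici T, max (t - T) 0 ^ (k + 2) = (t - T) ^ (k + 2) := fun t ht ↦ by
    rw [max_eq_left (sub_nonneg.2 ht)]
  rcases lt_trichotomy x T with h | rfl | h
  · rw [max_eq_right (sub_nonpos.2 h.le)]
    have : HasDerivAt (fun _ : ℝ ↦ (0 : ℝ)) 0 x := hasDerivAt_const _ _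
    simpa using this.congr_of_eventuallyEq (by
      filter_upwards [Iic_mem_nhds h] with t ht using hl t ht)
  · have h1 : HasDerivWithinAt (fun t ↦ max (t - x) 0 ^ (k + 2)) 0 (Iic x) x :=
      (hasDerivWithinAt_const x _ (0 : ℝ)).congr hl (hl x self_mem_Iic)
    have h2 : HasDerivWithinAt (fun t ↦ max (t - x) 0 ^ (k + 2)) 0 (Ici x) x := by
      have := ((hp x).hasDerivWithinAt (s := Ici x)).congr hr (hr x self_mem_Ici)
      simpa using this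
    have h3 := h1.union h2
    rw [Iic_union_Ici, hasDerivWithinAt_univ] at h3
    simpa using h3
  · rw [max_eq_left (sub_nonneg.2 h.le)]
    exact (hp x).congr_of_eventuallyEq (by
      filter_upwards [Ici_mem_nhds h] with t ht using hr t ht)

lemma contDiff_tp (k : ℕ) (T : ℝ) :
    ContDiff ℝ (k : WithTop ℕ∞) (fun t ↦ max (t - T) 0 ^ (k + 1)) := by
  induction k with
  | zero =>
    simp only [Nat.cast_zero, contDiff_zero]
    fun_prop
  | succ k ih =>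
    rw [Nat.cast_succ, contDiff_succ_iff_deriv]
    refine ⟨fun x ↦ (hasDerivAt_tp k T x).differentiableAt, by simp, ?_⟩
    rw [show deriv (fun t ↦ max (t - T) 0 ^ (k + 1 + 1)) =
      fun x ↦ ((k + 2 : ℕ) : ℝ) * max (x - T) 0 ^ (k + 1) from
      funext fun x ↦ (hasDerivAt_tp k T x).deriv]
    exact contDiff_const.mul ih

/-- splines of degree `k + 1` on the line with knots in `K` -/
def SplK (k : ℕ) (K : Finset ℝ) (f : ℝ → ℝ) : Prop :=
  ContDiff ℝ (k : WithTop ℕ∞) f ∧ ∀ α β : ℝ, (∀ x ∈ K, x ≤ α ∨ β ≤ x) →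
    ∃ p : Polynomial ℝ, p.natDegree ≤ k + 1 ∧ ∀ x ∈ Icc α β, f x = p.eval x

lemma SplK.const (k : ℕ) (c : ℝ) : SplK k ∅ fun _ ↦ c :=
  ⟨contDiff_const, fun _ _ _ ↦ ⟨Polynomial.C c, by simp, by simp⟩⟩

lemma SplK.add_tp {k : ℕ} {K : Finset ℝ} {f : ℝ → ℝ} (h : SplK k K f) (c T : ℝ) :
    SplK k (insert T K) fun t ↦ f t + max (t - T) 0 ^ (k + 1) * c := by
  refine ⟨h.1.add ((contDiff_tp k T).mul contDiff_const), fun α β hK ↦ ?_⟩
  obtain ⟨p, hp, hpe⟩ := h.2 α β fun x hx ↦ hK x (Finset.mem_insert_of_mem hx)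
  rcases hK T (Finset.mem_insert_self _ _) with h1 | h1
  · refine ⟨p + (Polynomial.X - Polynomial.C T) ^ (k + 1) * Polynomial.C c, ?_, fun x hx ↦ ?_⟩
    · refine Polynomial.natDegree_add_le_of_degree_le hp
        ((Polynomial.natDegree_mul_C_le _ _).trans ?_)
      simp [Polynomial.natDegree_pow]
    · simp only
      rw [max_eq_left (sub_nonneg.2 (h1.trans hx.1)), hpe x hx]
      simp
  · refine ⟨p, hp, fun x hx ↦ ?_⟩
    simp only
    rw [max_eq_right (sub_nonpos.2 (hx.2.trans h1)), hpe x hx]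
    simp

lemma SplK.isSpline {k n : ℕ} {K : Finset ℝ} {f : ℝ → ℝ} (h : SplK k K f)
    (hK : ∀ x ∈ K, x ∈ Ioo (0 : ℝ) 1) (hn : K.card + 1 ≤ n) : IsSpline (k + 1) n f := by
  classical
  refine ⟨h.1.contDiffOn, ?_⟩
  obtain ⟨m, rfl⟩ : ∃ m, n = m + 1 := ⟨n - 1, by omega⟩
  obtain ⟨K', hK1, hK2, hK3⟩ : ∃ K' : Finset ℝ, K ⊆ K' ∧ K'.card = m ∧
      ∀ x ∈ K', x ∈ Ioo (0 : ℝ) 1 := by
    have hinf : (Ioo (0 : ℝ) 1 \ K).Infinite :=
      (Ioo_infinite one_pos).sdiff K.finite_toSet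
    obtain ⟨E, hE, hE'⟩ := hinf.exists_subset_card_eq (m - K.card)
    refine ⟨K ∪ E, Finset.subset_union_left, ?_, fun x hx ↦ ?_⟩
    · rw [Finset.card_union_of_disjoint (Finset.disjoint_right.2 fun x hx ↦ (hE hx).2), hE']
      omega
    · rcases Finset.mem_union.1 hx with hx | hx
      · exact hK x hx
      · exact (hE hx).1
  set L : Finset ℝ := insert 0 (insert 1 K') with hL
  have hLc : L.card = m + 1 + 1 := by
    rw [hL, Finset.card_insert_of_notMem, Finset.card_insert_of_notMem, hK2]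
    · exact fun h ↦ lt_irrefl _ (hK3 _ h).2
    · simp only [Finset.mem_insert, zero_ne_one, false_or]
      exact fun h ↦ lt_irrefl _ (hK3 _ h).1
  have hLm : ∀ x ∈ L, x ∈ Icc (0 : ℝ) 1 := by
    intro x hx
    simp only [hL, Finset.mem_insert] at hx
    rcases hx with rfl | rfl | hx
    · simp
    · simp
    · exact Ioo_subset_Icc_self (hK3 x hx)
  set e := L.orderEmbOfFin hLc with he
  have hsurj : ∀ x ∈ L, ∃ i, e i = x := by
    intro x hx
    have : x ∈ range e := by rw [he, Finset.range_orderEmbOfFin]; exact hx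
    exact this
  refine ⟨e, e.strictMono, ?_, ?_, fun i ↦ h.2 _ _ fun x hx ↦ ?_⟩
  · obtain ⟨i, hi⟩ := hsurj 0 (by simp [hL])
    exact le_antisymm (hi ▸ e.monotone (Fin.zero_le i)) (hLm _ (L.orderEmbOfFin_mem hLc 0)).1
  · obtain ⟨i, hi⟩ := hsurj 1 (by simp [hL])
    exact le_antisymm (hLm _ (L.orderEmbOfFin_mem hLc _)).2 (hi ▸ e.monotone (Fin.le_last i))
  · obtain ⟨j, rfl⟩ := hsurj x (by simp [hL, hK1 hx])
    rcases le_or_gt j i.castSucc with h1 | h1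
    · exact Or.inl (e.monotone h1)
    · exact Or.inr (e.monotone (Fin.castSucc_lt_iff_succ_le.1 h1))

/-- a spline curve with at most `a` and `b` interior knots ends at `v`, stays near `U` and
comes near every point of `S` -/
def Real' (k : ℕ) (U : Set (ℝ × ℝ)) (δ : ℝ) (v : ℝ × ℝ) (S : Set (ℝ × ℝ)) (a b : ℕ) : Prop :=
  ∃ (φ ψ : ℝ → ℝ) (Kx Ky : Finset ℝ) (τ : ℝ), τ < 1 ∧ SplK k Kx φ ∧ SplK k Ky ψ ∧
    (∀ x ∈ Kx, x ∈ Ioo (0 : ℝ) 1) ∧ (∀ x ∈ Ky, x ∈ Ioo (0 : ℝ) 1) ∧ Kx.card ≤ a ∧ Ky.card ≤ b ∧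
    (φ 1, ψ 1) = v ∧ (∀ t ∈ Icc (0 : ℝ) 1, ∃ z ∈ U, dist (φ t, ψ t) z < δ) ∧
    ∀ u ∈ S, ∃ t ∈ Icc 0 τ, dist (φ t, ψ t) u < δ

lemma Real'.nil (k : ℕ) {U : Set (ℝ × ℝ)} {δ : ℝ} (hδ : 0 < δ) {v : ℝ × ℝ} (hv : v ∈ U) :
    Real' k U δ v {v} 0 0 :=
  ⟨fun _ ↦ v.1, fun _ ↦ v.2, ∅, ∅, 0, one_pos, SplK.const _ _, SplK.const _ _, by simp, by simp,
    le_rfl, le_rfl, rfl, fun _ _ ↦ ⟨v, hv, by simpa using hδ⟩,
    fun u hu ↦ ⟨0, by simp, by rw [mem_singleton_iff.1 hu]; simpa using hδ⟩⟩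

lemma Real'.mono {k : ℕ} {U : Set (ℝ × ℝ)} {δ : ℝ} {v : ℝ × ℝ} {S S' : Set (ℝ × ℝ)}
    {a b a' b' : ℕ} (h : Real' k U δ v S a b) (hS : S' ⊆ S) (ha : a ≤ a') (hb : b ≤ b') :
    Real' k U δ v S' a' b' := by
  obtain ⟨φ, ψ, Kx, Ky, τ, h1, h2, h3, h4, h5, h6, h7, h8, h9, h10⟩ := h
  exact ⟨φ, ψ, Kx, Ky, τ, h1, h2, h3, h4, h5, h6.trans ha, h7.trans hb, h8, h9,
    fun u hu ↦ h10 u (hS hu)⟩

lemma Real'.step {k : ℕ} {U : Set (ℝ × ℝ)} {δ : ℝ} (hδ : 0 < δ) {u v : ℝ × ℝ}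
    {S : Set (ℝ × ℝ)} {a b : ℕ} (h : Real' k U δ u S a b) (hU : segment ℝ u v ⊆ U) :
    Real' k U δ v (S ∪ segment ℝ u v) (a + if u.1 = v.1 then 0 else 1)
      (b + if u.2 = v.2 then 0 else 1) := by
  classical
  obtain ⟨φ, ψ, Kx, Ky, τ, h1, h2, h3, h4, h5, h6, h7, h8, h9, h10⟩ := h
  have hc : Continuous fun t ↦ (φ t, ψ t) := h2.1.continuous.prodMk h3.1.continuous
  obtain ⟨T, hT1, hT2, hT3, hT4⟩ : ∃ T : ℝ, 0 < T ∧ τ < T ∧ T < 1 ∧
      ∀ t ∈ Icc T 1, dist (φ t, ψ t) u < δ / 2 := by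
    obtain ⟨η, hη, hη'⟩ := Metric.continuousAt_iff.1 (hc.continuousAt (x := 1)) (δ / 2)
      (half_pos hδ)
    obtain ⟨T, hT, hT'⟩ := exists_between (show max (max 0 τ) (1 - η) < 1 by
      simp only [max_lt_iff]; exact ⟨⟨one_pos, h1⟩, by linarith⟩)
    simp only [max_lt_iff] at hT
    refine ⟨T, hT.1.1, hT.1.2, hT', fun t ht ↦ ?_⟩
    rw [← h8]
    refine hη' ?_
    rw [Real.dist_eq, abs_lt]
    constructor <;> linarith [ht.1, ht.2]
  have hT0 : 0 < (1 - T) ^ (k + 1) := pow_pos (by linarith) _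
  set lam : ℝ → ℝ := fun t ↦ max (t - T) 0 ^ (k + 1) / (1 - T) ^ (k + 1) with hlam
  have hlamc : Continuous lam := by simp only [hlam]; fun_prop
  have hlam0 : ∀ t ≤ T, lam t = 0 := fun t ht ↦ by
    simp [hlam, max_eq_right (sub_nonpos.2 ht)]
  have hlam1 : lam 1 = 1 := by
    simp only [hlam]
    rw [max_eq_left (by linarith), div_self hT0.ne']
  have hlam2 : ∀ t ≤ 1, lam t ∈ Icc (0 : ℝ) 1 := fun t ht ↦ by
    refine ⟨by simp only [hlam]; positivity, ?_⟩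
    simp only [hlam]
    rw [div_le_one hT0]
    exact pow_le_pow_left₀ (le_max_right _ _) (max_le (by linarith) (by linarith)) _
  have key : ∀ (f : ℝ → ℝ) (K : Finset ℝ) (c : ℕ) (x y : ℝ), SplK k K f →
      (∀ x ∈ K, x ∈ Ioo (0 : ℝ) 1) → K.card ≤ c → ∃ K' : Finset ℝ,
      SplK k K' (fun t ↦ f t + lam t * (y - x)) ∧ (∀ x ∈ K', x ∈ Ioo (0 : ℝ) 1) ∧
        K'.card ≤ c + if x = y then 0 else 1 := by
    intro f K c x y e1 e2 e3
    by_cases hxy : x = y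
    · exact ⟨K, by simpa [hxy] using e1, e2, by simpa [hxy] using e3⟩
    · refine ⟨insert T K, ?_, ?_, ?_⟩
      · convert e1.add_tp ((y - x) / (1 - T) ^ (k + 1)) T using 3
        simp only [hlam]
        ring
      · intro z hz
        rcases Finset.mem_insert.1 hz with rfl | hz
        · exact ⟨hT1, hT3⟩
        · exact e2 z hz
      · rw [if_neg hxy]
        exact (Finset.card_insert_le _ _).trans (by omega)
  obtain ⟨Kx', a1, a2, a3⟩ := key φ Kx a u.1 v.1 h2 h4 h6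
  obtain ⟨Ky', b1, b2, b3⟩ := key ψ Ky b u.2 v.2 h3 h5 h7
  have hd : ∀ t, dist (φ t + lam t * (v.1 - u.1), ψ t + lam t * (v.2 - u.2))
      (u + lam t • (v - u)) = dist (φ t, ψ t) u := by
    intro t
    have : (φ t + lam t * (v.1 - u.1), ψ t + lam t * (v.2 - u.2)) =
        (φ t, ψ t) + lam t • (v - u) := by ext <;> simp
    rw [this, dist_add_right]
  obtain ⟨η, hη, hη'⟩ := Metric.continuousAt_iff.1
    ((hlamc.smul continuous_const).continuousAt (x := 1) (f := fun t ↦ lam t • (v - u)))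
    (δ / 4) (by positivity)
  obtain ⟨τ', hτ1, hτ2⟩ := exists_between (show max T (1 - η) < 1 by
    simp only [max_lt_iff]; exact ⟨hT3, by linarith⟩)
  simp only [max_lt_iff] at hτ1
  refine ⟨_, _, Kx', Ky', τ', hτ2, a1, b1, a2, b2, a3, b3, ?_, fun t ht ↦ ?_, fun w hw ↦ ?_⟩
  · rw [← h8]
    ext <;> simp [hlam1]
  · rcases le_total t T with h | h
    · simpa [hlam0 t h] using h9 t ht
    · refine ⟨u + lam t • (v - u), hU ?_, ?_⟩
      · rw [segment_eq_image']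
        exact ⟨lam t, hlam2 t ht.2, rfl⟩
      · rw [hd]
        linarith [hT4 t ⟨h, ht.2⟩]
  · rcases hw with hw | hw
    · obtain ⟨t, ht, ht'⟩ := h10 w hw
      exact ⟨t, ⟨ht.1, by linarith [ht.2]⟩, by simpa [hlam0 t (by linarith [ht.2])] using ht'⟩
    · rw [segment_eq_image'] at hw
      obtain ⟨θ, hθ, rfl⟩ := hw
      obtain ⟨t, ht, ht'⟩ := intermediate_value_Icc hT3.le hlamc.continuousOn
        (show θ ∈ Icc (lam T) (lam 1) by rwa [hlam0 T le_rfl, hlam1])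
      rcases le_total t τ' with h | h
      · refine ⟨t, ⟨by linarith [ht.1], h⟩, ?_⟩
        simp only
        rw [← ht', hd]
        linarith [hT4 t ht]
      · refine ⟨τ', ⟨by linarith [hτ1.1], le_rfl⟩, ?_⟩
        have c1 := hη' (x := t) (by
          rw [Real.dist_eq, abs_lt]; constructor <;> linarith [ht.2, hτ1.2])
        have c2 := hη' (x := τ') (by
          rw [Real.dist_eq, abs_lt]; constructor <;> linarith [hτ1.2])
        have c3 := dist_triangle_right (lam τ' • (v - u)) (lam t • (v - u)) (lam 1 • (v - u))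
        have c4 := hT4 τ' ⟨hτ1.1.le, hτ2.le⟩
        rw [← hd] at c4
        refine (dist_triangle _ (u + lam τ' • (v - u)) _).trans_lt ?_
        simp only
        rw [← ht', dist_add_left]
        linarith

theorem Real'.hausdorff {k n : ℕ} {F : Set (ℝ × ℝ)} {ε δ : ℝ} (hε : 0 ≤ ε) (hδ : 0 < δ)
    {v : ℝ × ℝ} {S : Set (ℝ × ℝ)} {a b : ℕ}
    (h : Real' k {z | ∃ p ∈ F, dist p z ≤ ε} δ v S a b) (hS : ∀ p ∈ F, ∃ c ∈ S, dist p c ≤ ε)
    (ha : a + 1 ≤ n) (hb : b + 1 ≤ n) :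
    ∃ γ ∈ splineCurves (k + 1) n, hausdorffDist F γ ≤ ε + δ := by
  obtain ⟨φ, ψ, Kx, Ky, τ, h1, h2, h3, h4, h5, h6, h7, -, h9, h10⟩ := h
  refine ⟨_, ⟨φ, ψ, h2.isSpline h4 (by omega), h3.isSpline h5 (by omega), rfl⟩,
    hausdorffDist_le_of_mem_dist (by linarith) (fun p hp ↦ ?_) ?_⟩
  · obtain ⟨c, hc, hc'⟩ := hS p hp
    obtain ⟨t, ht, ht'⟩ := h10 c hc
    refine ⟨_, ⟨t, ⟨ht.1, ht.2.trans h1.le⟩, rfl⟩, ?_⟩
    have := dist_triangle_right p (φ t, ψ t) c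
    linarith
  · rintro _ ⟨t, ht, rfl⟩
    obtain ⟨z, ⟨p, hp, hp'⟩, hz⟩ := h9 t ht
    refine ⟨p, hp, ?_⟩
    have := dist_triangle_right (φ t, ψ t) p z
    simp only
    linarith

end Pool.Agent.Lib.MP_04cb70_an
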