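import Mathlib

/-! A finite set connected by two equivalence relations has a covering walk that uses each
relation at most as many times as there are points. -/

namespace Pool.Agent.Lib.MP_04cb70_an.Tour

variable {α : Type*}

/-- the walk ends at `v`; the list is its history, read backwards -/
def Valid (rel : Bool → α → α → Prop) : α → List (Bool × α) → Prop
  | _, [] => True
  | v, x :: l => rel x.1 x.2 v ∧ Valid rel x.2 l

/-- number of steps of type `b` -/
def cnt (b : Bool) : List (Bool × α) → ℕ
  | [] => 0
  | x :: l => (if x.1 = b then 1 else 0) + cnt b l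

variable [DecidableEq α]

/-- vertices of the walk -/
def verts : α → List (Bool × α) → Finset α
  | v, [] => {v}
  | v, x :: l => insert v (verts x.2 l)

/-- end points of the steps of type `b` -/
def touched (b : Bool) : α → List (Bool × α) → Finset α
  | _, [] => ∅
  | v, x :: l => if x.1 = b then insert v (insert x.2 (touched b x.2 l)) else touched b x.2 l

lemma self_mem_verts (v : α) (l : List (Bool × α)) : v ∈ verts v l := by
  cases l <;> simp [verts]

lemma touched_subset (b : Bool) (v : α) (l : List (Bool × α)) : touched b v l ⊆ verts v l := by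
  induction l generalizing v with
  | nil => simp [touched]
  | cons x l ih =>
    simp only [touched, verts]
    split_ifs
    · exact Finset.insert_subset_insert _ (Finset.insert_subset (self_mem_verts _ _) (ih _))
    · exact (ih _).trans (Finset.subset_insert _ _)

variable {rel : Bool → α → α → Prop}

lemma insert_one (hs : ∀ b x y, rel b x y → rel b y x)
    (ht : ∀ b x y z, rel b x y → rel b y z → rel b x z) {b : Bool} {c c' : α} (hc : rel b c c')
    (v : α) (l : List (Bool × α)) (hv : Valid rel v l) (hm : c ∈ touched b v l) :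
    ∃ l', Valid rel v l' ∧ verts v l' = insert c' (verts v l) ∧
      cnt b l' = cnt b l + 1 ∧ cnt (!b) l' = cnt (!b) l ∧
      touched b v l' = insert c' (touched b v l) ∧ touched (!b) v l' = touched (!b) v l := by
  induction l generalizing v with
  | nil => simp [touched] at hm
  | cons x l ih =>
    obtain ⟨b', u⟩ := x
    by_cases h : b' = b ∧ (c = v ∨ c = u)
    · obtain ⟨rfl, h⟩ := h
      have h1 : rel b' c' v ∧ rel b' u c' := by
        rcases h with rfl | rfl
        · exact ⟨hs _ _ _ hc, ht _ _ _ _ hv.1 hc⟩
        · exact ⟨ht _ _ _ _ (hs _ _ _ hc) hv.1, hc⟩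
      refine ⟨(b', c') :: (b', u) :: l, ⟨h1.1, h1.2, hv.2⟩, ?_, ?_, ?_, ?_, ?_⟩
      · simp only [verts]
        exact Finset.insert_comm _ _ _
      · simp only [cnt, if_true]
        omega
      · simp [cnt]
      · simp only [touched, if_true, Finset.insert_idem]
        exact Finset.insert_comm _ _ _
      · simp [touched]
    · have hm' : c ∈ touched b u l := by
        simp only [touched] at hm
        split_ifs at hm with h1
        · simp only [Finset.mem_insert] at hm
          tauto
        · exact hm
      obtain ⟨l', e1, e2, e3, e4, e5, e6⟩ := ih u hv.2 hm'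
      refine ⟨(b', u) :: l', ⟨hv.1, e1⟩, ?_, ?_, ?_, ?_, ?_⟩
      · simp only [verts, e2]
        exact Finset.insert_comm _ _ _
      · simp only [cnt, e3]
        omega
      · simp only [cnt, e4]
      · simp only [touched, e5]
        split_ifs
        · rw [Finset.insert_comm u c', Finset.insert_comm v c']
        · rfl
      · simp only [touched, e6]

lemma insert_two (hs : ∀ b x y, rel b x y → rel b y x) {b : Bool} {c c' : α} (hc : rel b c c')
    (v : α) (l : List (Bool × α)) (hv : Valid rel v l) (hm : c ∈ verts v l) :
    ∃ l', Valid rel v l' ∧ verts v l' = insert c' (verts v l) ∧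
      cnt b l' = cnt b l + 2 ∧ cnt (!b) l' = cnt (!b) l ∧
      touched b v l' = insert c' (insert c (touched b v l)) ∧
      touched (!b) v l' = touched (!b) v l := by
  induction l generalizing v with
  | nil =>
    obtain rfl : c = v := by simpa [verts] using hm
    refine ⟨[(b, c'), (b, c)], ⟨hs _ _ _ hc, hc, trivial⟩, ?_, ?_, ?_, ?_, ?_⟩
    · ext; simp [verts]
    · simp [cnt]
    · simp [cnt]
    · ext; simp [touched]
    · simp [touched]
  | cons x l ih =>
    obtain ⟨b', u⟩ := x
    by_cases h : c = v
    · subst h
      refine ⟨(b, c') :: (b, c) :: (b', u) :: l, ⟨hs _ _ _ hc, hc, hv⟩, ?_, ?_, ?_, ?_, ?_⟩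
      · ext; simp [verts]
      · simp only [cnt, if_true]
        omega
      · simp [cnt]
      · ext
        simp only [touched, if_true, Finset.mem_insert]
        tauto
      · simp [touched]
    · have hm' : c ∈ verts u l := by simpa [verts, h] using hm
      obtain ⟨l', e1, e2, e3, e4, e5, e6⟩ := ih u hv.2 hm'
      refine ⟨(b', u) :: l', ⟨hv.1, e1⟩, ?_, ?_, ?_, ?_, ?_⟩
      · simp only [verts, e2]
        exact Finset.insert_comm _ _ _
      · simp only [cnt, e3]
        omega
      · simp only [cnt, e4]
      · simp only [touched, e5]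
        split_ifs
        · ext
          simp only [Finset.mem_insert]
          tauto
        · rfl
      · simp only [touched, e6]

theorem exists_tour (hs : ∀ b x y, rel b x y → rel b y x)
    (ht : ∀ b x y z, rel b x y → rel b y z → rel b x z) (𝒮 : Finset α) {v : α} (hv : v ∈ 𝒮)
    (H : ∀ S ⊆ 𝒮, v ∈ S → S ≠ 𝒮 → ∃ b, ∃ c ∈ S, ∃ c' ∈ 𝒮, c' ∉ S ∧ rel b c c') :
    ∃ l, Valid rel v l ∧ verts v l = 𝒮 ∧ ∀ b, cnt b l ≤ 𝒮.card := by
  have key : ∀ j, j + 1 ≤ 𝒮.card → ∃ l, Valid rel v l ∧ verts v l ⊆ 𝒮 ∧
      (verts v l).card = j + 1 ∧ ∀ b, cnt b l ≤ (touched b v l).card := by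
    intro j
    induction j with
    | zero =>
      intro _
      exact ⟨[], trivial, by simpa [verts] using hv, by simp [verts], by simp [cnt]⟩
    | succ j ih =>
      intro hj
      obtain ⟨l, h1, h2, h3, h4⟩ := ih (by omega)
      obtain ⟨b, c, hc, c', hc', hc'', hr⟩ := H _ h2 (self_mem_verts v l) (by
        intro h
        rw [h] at h3
        omega)
      have hc3 : c' ∉ touched b v l := fun h ↦ hc'' (touched_subset _ _ _ h)
      have hall : ∀ (l' : List (Bool × α)), cnt b l' ≤ (touched b v l').card →
          cnt (!b) l' = cnt (!b) l → touched (!b) v l' = touched (!b) v l →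
          ∀ b', cnt b' l' ≤ (touched b' v l').card := by
        intro l' e1 e2 e3 b'
        by_cases hb : b' = b
        · rw [hb]; exact e1
        · obtain rfl : b' = !b := by cases b <;> cases b' <;> simp_all
          rw [e2, e3]
          exact h4 _
      by_cases hm : c ∈ touched b v l
      · obtain ⟨l', e1, e2, e3, e4, e5, e6⟩ := insert_one hs ht hr v l h1 hm
        refine ⟨l', e1, by rw [e2]; exact Finset.insert_subset hc' h2,
          by rw [e2, Finset.card_insert_of_notMem hc'', h3], hall l' ?_ e4 e6⟩
        rw [e3, e5, Finset.card_insert_of_notMem hc3]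
        exact Nat.succ_le_succ (h4 b)
      · obtain ⟨l', e1, e2, e3, e4, e5, e6⟩ := insert_two hs hr v l h1 hc
        refine ⟨l', e1, by rw [e2]; exact Finset.insert_subset hc' h2,
          by rw [e2, Finset.card_insert_of_notMem hc'', h3], hall l' ?_ e4 e6⟩
        have hne : c' ≠ c := fun h ↦ hc'' (h ▸ hc)
        rw [e3, e5, Finset.card_insert_of_notMem (by simp [hne, hc3]),
          Finset.card_insert_of_notMem hm]
        have := h4 b
        omega
  have hpos : 0 < 𝒮.card := Finset.card_pos.2 ⟨v, hv⟩
  obtain ⟨l, h1, h2, h3, h4⟩ := key (𝒮.card - 1) (by omega)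
  have h5 : verts v l = 𝒮 := Finset.eq_of_subset_of_card_le h2 (by omega)
  exact ⟨l, h1, h5, fun b ↦ (h4 b).trans (Finset.card_le_card (h5 ▸ touched_subset b v l))⟩

end Pool.Agent.Lib.MP_04cb70_an.Tour
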