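import Pool.Agent.Lib.MP_04cb70_an.Tour
import Pool.Agent.Lib.MP_04cb70_an.Realize

/-! Upper bound: a tour through the centres of the grid cells that meet the continuum. -/

open Set Metric

namespace Pool.Agent.Lib.MP_04cb70_an

open Tour

/-- horizontal (`true`) or vertical (`false`) visibility inside `U` -/
def Vis (U : Set (ℝ × ℝ)) : Bool → ℝ × ℝ → ℝ × ℝ → Prop
  | true, u, v => u.2 = v.2 ∧ ∀ x ∈ uIcc u.1 v.1, (x, u.2) ∈ U
  | false, u, v => u.1 = v.1 ∧ ∀ y ∈ uIcc u.2 v.2, (u.1, y) ∈ U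

lemma Vis.symm {U : Set (ℝ × ℝ)} (b : Bool) (u v : ℝ × ℝ) (h : Vis U b u v) : Vis U b v u := by
  cases b
  · exact ⟨h.1.symm, fun y hy ↦ h.1 ▸ h.2 y (uIcc_comm v.2 u.2 ▸ hy)⟩
  · exact ⟨h.1.symm, fun y hy ↦ h.1 ▸ h.2 y (uIcc_comm v.1 u.1 ▸ hy)⟩

lemma Vis.trans {U : Set (ℝ × ℝ)} (b : Bool) (u v w : ℝ × ℝ) (h : Vis U b u v)
    (h' : Vis U b v w) : Vis U b u w := by
  cases b
  · refine ⟨h.1.trans h'.1, fun y hy ↦ ?_⟩
    rcases uIcc_subset_uIcc_union_uIcc (b := v.2) hy with hy | hy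
    · exact h.2 y hy
    · exact h.1 ▸ h'.2 y hy
  · refine ⟨h.1.trans h'.1, fun y hy ↦ ?_⟩
    rcases uIcc_subset_uIcc_union_uIcc (b := v.1) hy with hy | hy
    · exact h.2 y hy
    · exact h.1 ▸ h'.2 y hy

lemma Vis.segment_subset {U : Set (ℝ × ℝ)} {b : Bool} {u v : ℝ × ℝ} (h : Vis U b u v) :
    segment ℝ u v ⊆ U := by
  intro z hz
  have h1 := Prod.segment_subset u v hz
  simp only [segment_eq_uIcc, mem_prod] at h1
  cases b
  · have e : z.1 = u.1 := by simpa [← h.1] using h1.1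
    have := h.2 _ h1.2
    rwa [← e] at this
  · have e : z.2 = u.2 := by simpa [← h.1] using h1.2
    have := h.2 _ h1.1
    rwa [← e] at this

open Classical in
lemma real_of_valid (k : ℕ) {U : Set (ℝ × ℝ)} {δ : ℝ} (hδ : 0 < δ) (v : ℝ × ℝ)
    (l : List (Bool × (ℝ × ℝ))) (hl : Valid (Vis U) v l) (hv : ∀ u ∈ verts v l, u ∈ U) :
    Real' k U δ v (verts v l) (cnt true l) (cnt false l) := by
  induction l generalizing v with
  | nil => simpa [verts, cnt] using Real'.nil k hδ (hv v (by simp [verts]))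
  | cons x l ih =>
    obtain ⟨b, u⟩ := x
    have h1 := (ih u hl.2 fun w hw ↦ hv w (by simp [verts, hw])).step hδ hl.1.segment_subset
    refine h1.mono ?_ ?_ ?_
    · intro w hw
      simp only [verts, Finset.coe_insert, mem_insert_iff] at hw
      rcases hw with rfl | hw
      · exact Or.inr (right_mem_segment _ _ _)
      · exact Or.inl hw
    · cases b
      · have : u.1 = v.1 := hl.1.1
        simp [cnt, this]
      · simp only [cnt, if_true]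
        split_ifs <;> omega
    · cases b
      · simp only [cnt, if_true]
        split_ifs <;> omega
      · have : u.2 = v.2 := hl.1.1
        simp [cnt, this]

theorem grid_upper {F : Set (ℝ × ℝ)} (hF : IsConnected F) (X : Finset ℝ) {ε δ : ℝ} (hε : 0 ≤ ε)
    (hδ : 0 < δ) (hX : ∀ p ∈ F, (∃ x ∈ X, |p.1 - x| ≤ ε) ∧ ∃ y ∈ X, |p.2 - y| ≤ ε) {k n : ℕ}
    (hn : X.card ^ 2 + 1 ≤ n) : ∃ γ ∈ splineCurves (k + 1) n, hausdorffDist F γ ≤ ε + δ := by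
  classical
  set U : Set (ℝ × ℝ) := {z | ∃ p ∈ F, dist p z ≤ ε} with hU
  set 𝒮 : Finset (ℝ × ℝ) := (X ×ˢ X).filter (· ∈ U) with h𝒮
  have hcov : ∀ p ∈ F, ∃ c ∈ 𝒮, dist p c ≤ ε := by
    intro p hp
    obtain ⟨⟨x, hx, hx'⟩, ⟨y, hy, hy'⟩⟩ := hX p hp
    have : dist p (x, y) ≤ ε := by simpa [Prod.dist_eq, Real.dist_eq] using ⟨hx', hy'⟩
    exact ⟨(x, y), Finset.mem_filter.2 ⟨Finset.mem_product.2 ⟨hx, hy⟩, p, hp, this⟩, this⟩
  obtain ⟨p0, hp0⟩ := hF.nonempty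
  obtain ⟨v, hv, -⟩ := hcov p0 hp0
  have hball : ∀ p : ℝ × ℝ, ∀ x y, |p.1 - x| ≤ ε → |p.2 - y| ≤ ε → dist p (x, y) ≤ ε := by
    intro p x y h1 h2
    simpa [Prod.dist_eq, Real.dist_eq] using ⟨h1, h2⟩
  have hconv : ∀ c x x' : ℝ, |c - x| ≤ ε → |c - x'| ≤ ε → ∀ z ∈ uIcc x x', |c - z| ≤ ε := by
    intro c x x' h1 h2 z hz
    rw [abs_le] at *
    rcases mem_uIcc.1 hz with h | h <;> constructor <;> linarith [h.1, h.2, h1.1, h1.2, h2.1, h2.2]
  obtain ⟨l, h1, h2, h3⟩ := exists_tour (rel := Vis U) Vis.symm Vis.trans 𝒮 hv (by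
    intro S hS hvS hne
    have hcl : ∀ T : Finset (ℝ × ℝ), IsClosed (⋃ c ∈ T, closedBall c ε) := fun T ↦
      isClosed_biUnion_finset fun _ _ ↦ isClosed_closedBall
    obtain ⟨c1, hc1, hc1'⟩ := Finset.exists_of_ssubset (hS.ssubset_of_ne hne)
    have hmeet : ∀ c ∈ 𝒮, ∀ T : Finset (ℝ × ℝ), c ∈ T →
        (F ∩ ⋃ c ∈ T, closedBall c ε).Nonempty := by
      intro c hc T hT
      obtain ⟨p, hp, hp'⟩ := (Finset.mem_filter.1 hc).2
      exact ⟨p, hp, mem_iUnion₂.2 ⟨c, hT, hp'⟩⟩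
    obtain ⟨p, hp, hpA, hpB⟩ := isPreconnected_closed_iff.1 hF.isPreconnected _ _ (hcl S)
      (hcl (𝒮 \ S)) (by
        intro p hp
        obtain ⟨c, hc, hc'⟩ := hcov p hp
        by_cases h : c ∈ S
        · exact Or.inl (mem_iUnion₂.2 ⟨c, h, hc'⟩)
        · exact Or.inr (mem_iUnion₂.2 ⟨c, Finset.mem_sdiff.2 ⟨hc, h⟩, hc'⟩))
      (hmeet v hv S hvS) (hmeet c1 hc1 _ (Finset.mem_sdiff.2 ⟨hc1, hc1'⟩))
    obtain ⟨c, hc, hpc⟩ := mem_iUnion₂.1 hpA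
    obtain ⟨c', hc', hpc'⟩ := mem_iUnion₂.1 hpB
    obtain ⟨hc'1, hc'2⟩ := Finset.mem_sdiff.1 hc'
    simp only [mem_closedBall, Prod.dist_eq, Real.dist_eq, max_le_iff] at hpc hpc'
    by_cases h : (c'.1, c.2) ∈ S
    · exact ⟨false, _, h, c', hc'1, hc'2, rfl, fun y hy ↦
        ⟨p, hp, hball p _ _ hpc'.1 (hconv _ _ _ hpc.2 hpc'.2 y hy)⟩⟩
    · refine ⟨true, c, hc, (c'.1, c.2), ?_, h, rfl, fun x hx ↦
        ⟨p, hp, hball p _ _ (hconv _ _ _ hpc.1 hpc'.1 x hx) hpc.2⟩⟩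
      exact Finset.mem_filter.2 ⟨Finset.mem_product.2
        ⟨(Finset.mem_product.1 (Finset.mem_filter.1 hc'1).1).1,
          (Finset.mem_product.1 (Finset.mem_filter.1 (hS hc)).1).2⟩,
        p, hp, hball p _ _ hpc'.1 hpc.2⟩)
  have h4 := real_of_valid k hδ v l h1 (by rw [h2]; exact fun u hu ↦ (Finset.mem_filter.1 hu).2)
  have h5 : 𝒮.card ≤ X.card ^ 2 := by
    rw [sq, ← Finset.card_product]
    exact Finset.card_filter_le _ _
  rw [h2] at h4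
  exact h4.hausdorff hε hδ hcov (by linarith [h3 true]) (by linarith [h3 false])

theorem square_upper {a b : ℝ} (hab : a < b) {F : Set (ℝ × ℝ)} (hF : F ∈ continua a b) {m : ℕ}
    (hm : 0 < m) {k n : ℕ} (hn : m ^ 2 + 1 ≤ n) {δ : ℝ} (hδ : 0 < δ) :
    ∃ γ ∈ splineCurves (k + 1) n, hausdorffDist F γ ≤ (b - a) / (2 * m) + δ := by
  classical
  have hm' : (0 : ℝ) < m := by exact_mod_cast hm
  set ε : ℝ := (b - a) / (2 * m) with hε
  have hε0 : 0 < ε := div_pos (sub_pos.2 hab) (by positivity)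
  have hb : b = a + 2 * m * ε := by rw [hε]; field_simp; ring
  set X : Finset ℝ := (Finset.range m).image fun i : ℕ ↦ a + (2 * i + 1) * ε with hX
  have hcov : ∀ j : ℕ, ∀ x, a ≤ x → x ≤ a + 2 * ((j + 1 : ℕ) : ℝ) * ε →
      ∃ i < j + 1, |x - (a + (2 * i + 1) * ε)| ≤ ε := by
    intro j
    induction j with
    | zero =>
      intro x h1 h2
      exact ⟨0, by omega, abs_le.2 ⟨by simp; linarith, by simp at h2 ⊢; linarith⟩⟩
    | succ j ih =>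
      intro x h1 h2
      rcases le_total x (a + 2 * ((j + 1 : ℕ) : ℝ) * ε) with h | h
      · obtain ⟨i, hi, hi'⟩ := ih x h1 h
        exact ⟨i, by omega, hi'⟩
      · push_cast at h h2
        exact ⟨j + 1, by omega, abs_le.2 ⟨by push_cast; linarith, by push_cast; linarith⟩⟩
  have hcov' : ∀ x ∈ Icc a b, ∃ y ∈ X, |x - y| ≤ ε := by
    intro x hx
    obtain ⟨j, rfl⟩ : ∃ j, m = j + 1 := ⟨m - 1, by omega⟩
    obtain ⟨i, hi, hi'⟩ := hcov j x hx.1 (hb ▸ hx.2)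
    exact ⟨_, Finset.mem_image.2 ⟨i, Finset.mem_range.2 hi, rfl⟩, hi'⟩
  refine grid_upper hF.2.1 X hε0.le hδ
    (fun p hp ↦ ⟨hcov' _ (hF.2.2 hp).1, hcov' _ (hF.2.2 hp).2⟩) ?_
  have : X.card ≤ m := Finset.card_image_le.trans (by simp)
  nlinarith

end Pool.Agent.Lib.MP_04cb70_an
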