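import Pool.Agent.Lib.MP_04cb70_an.Defs

/-! A spline of order `(k, n)` has at most `n + k - 1` monotone pieces. -/

open Set

namespace Pool.Agent.Lib.MP_04cb70_an

/-- `f` goes up and down `m` times on `[0, 1]` -/
def Zig (f : ℝ → ℝ) (m : ℕ) : Prop :=
  ∃ x : ℕ → ℝ, (∀ i < m, x i < x (i + 1)) ∧ (∀ i ≤ m, x i ∈ Icc (0 : ℝ) 1) ∧
    ∀ i, i + 2 ≤ m → (f (x (i + 1)) - f (x i)) * (f (x (i + 2)) - f (x (i + 1))) < 0

lemma knot_mem {n : ℕ} {t : Fin (n + 1) → ℝ} (ht : StrictMono t) (h0 : t 0 = 0)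
    (h1 : t (Fin.last n) = 1) (i : Fin (n + 1)) : t i ∈ Icc (0 : ℝ) 1 :=
  ⟨h0 ▸ ht.monotone (Fin.zero_le i), h1 ▸ ht.monotone (Fin.le_last i)⟩

lemma IsSpline.deriv {k n : ℕ} {s : ℝ → ℝ} (h : IsSpline (k + 2) n s) :
    IsSpline (k + 1) n (derivWithin s (Icc 0 1)) := by
  obtain ⟨hc, t, ht, h0, h1, hp⟩ := h
  have hu : UniqueDiffOn ℝ (Icc (0 : ℝ) 1) := uniqueDiffOn_Icc one_pos
  refine ⟨hc.derivWithin hu (by norm_cast), t, ht, h0, h1, fun i ↦ ?_⟩
  obtain ⟨p, hpd, hps⟩ := hp i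
  refine ⟨p.derivative, (Polynomial.natDegree_derivative_le p).trans (by omega), fun x hx ↦ ?_⟩
  have hsub : Icc (t i.castSucc) (t i.succ) ⊆ Icc (0 : ℝ) 1 :=
    Icc_subset_Icc (knot_mem ht h0 h1 _).1 (knot_mem ht h0 h1 _).2
  have hd : HasDerivWithinAt s (derivWithin s (Icc 0 1) x) (Icc (t i.castSucc) (t i.succ)) x :=
    ((hc.differentiableOn (by norm_cast; omega) x (hsub hx)).hasDerivWithinAt).mono hsub
  have hd' : HasDerivWithinAt s (p.derivative.eval x) (Icc (t i.castSucc) (t i.succ)) x :=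
    (p.hasDerivWithinAt x _).congr hps (hps x hx)
  exact (uniqueDiffOn_Icc (ht i.castSucc_lt_succ) x hx).eq_deriv _ hd hd'

lemma Zig.deriv {s : ℝ → ℝ} (hs : DifferentiableOn ℝ s (Icc 0 1)) {m : ℕ} (h : Zig s (m + 1)) :
    Zig (derivWithin s (Icc 0 1)) m := by
  obtain ⟨x, hx, hx1, hz⟩ := h
  have hex : ∀ i < m + 1, ∃ ξ ∈ Ioo (x i) (x (i + 1)),
      derivWithin s (Icc 0 1) ξ = (s (x (i + 1)) - s (x i)) / (x (i + 1) - x i) := by
    intro i hi
    have hsub : Icc (x i) (x (i + 1)) ⊆ Icc (0 : ℝ) 1 :=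
      Icc_subset_Icc (hx1 i (by omega)).1 (hx1 (i + 1) (by omega)).2
    refine exists_hasDerivAt_eq_slope s _ (hx i hi) (hs.continuousOn.mono hsub) fun y hy ↦ ?_
    have hy' : Icc (0 : ℝ) 1 ∈ nhds y :=
      Icc_mem_nhds ((hx1 i (by omega)).1.trans_lt hy.1) (hy.2.trans_le (hx1 (i + 1) (by omega)).2)
    exact (hs y (mem_of_mem_nhds hy')).hasDerivWithinAt.hasDerivAt hy'
  choose! ξ hξ hξ' using hex
  have hsign : ∀ i, i + 1 ≤ m →
      derivWithin s (Icc 0 1) (ξ i) * derivWithin s (Icc 0 1) (ξ (i + 1)) < 0 := by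
    intro i hi
    rw [hξ' i (by omega), hξ' (i + 1) (by omega), div_mul_div_comm]
    refine div_neg_of_neg_of_pos (hz i (by omega)) (mul_pos ?_ ?_)
    · exact sub_pos.2 (hx i (by omega))
    · exact sub_pos.2 (hx (i + 1) (by omega))
  refine ⟨ξ, fun i hi ↦ (hξ i (by omega)).2.trans (hξ (i + 1) (by omega)).1, fun i hi ↦
    ⟨(hx1 i (by omega)).1.trans (hξ i (by omega)).1.le,
      (hξ i (by omega)).2.le.trans (hx1 (i + 1) (by omega)).2⟩, fun i hi ↦ ?_⟩
  have e1 := hsign i (by omega)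
  have e2 := hsign (i + 1) (by omega)
  generalize derivWithin s (Icc 0 1) (ξ i) = A at *
  generalize derivWithin s (Icc 0 1) (ξ (i + 1)) = B at *
  generalize derivWithin s (Icc 0 1) (ξ (i + 1 + 1)) = C at *
  rcases lt_trichotomy B 0 with hB | hB | hB
  · have hA : 0 < A := by nlinarith
    have hC : 0 < C := by nlinarith
    nlinarith
  · simp [hB] at e1
  · have hA : A < 0 := by nlinarith
    have hC : C < 0 := by nlinarith
    nlinarith

lemma exists_piece {n : ℕ} {t : Fin (n + 1) → ℝ} (h0 : t 0 = 0) (h1 : t (Fin.last n) = 1)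
    {y : ℝ} (hy : y ∈ Ico (0 : ℝ) 1) : ∃ j : Fin n, t j.castSucc ≤ y ∧ y < t j.succ := by
  by_contra hcon
  push Not at hcon
  have : ∀ i : Fin (n + 1), t i ≤ y := by
    intro i
    induction i using Fin.induction with
    | zero => rw [h0]; exact hy.1
    | succ i ih => exact hcon i ih
  have := this (Fin.last n)
  rw [h1] at this
  exact absurd hy.2 (not_lt.2 this)

lemma zig_one {n m : ℕ} {s : ℝ → ℝ} (h : IsSpline 1 n s) (hz : Zig s m) : m ≤ n := by
  obtain ⟨hc, t, ht, h0, h1, hp⟩ := h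
  obtain ⟨x, hx, hx1, hz⟩ := hz
  have hn : 1 ≤ n := by
    obtain ⟨j, -⟩ := exists_piece h0 h1 (y := 0) (by simp)
    exact j.pos
  rcases le_or_gt m 1 with hm | hm
  · omega
  choose p hpd hps using hp
  have : Nonempty (Fin n) := ⟨⟨0, hn⟩⟩
  choose! J hJ1 hJ2 using fun y (hy : y ∈ Ico (0 : ℝ) 1) ↦ exists_piece h0 h1 hy
  have hder : ∀ y ∈ Ico (0 : ℝ) 1, HasDerivWithinAt s ((p (J y)).coeff 1) (Ici y) y := by
    intro y hy
    have e1 : (p (J y)).derivative.eval y = (p (J y)).coeff 1 := by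
      have e2 : (p (J y)).derivative.natDegree = 0 := by
        have := Polynomial.natDegree_derivative_le (p (J y))
        have := hpd (J y)
        omega
      rw [Polynomial.eq_C_of_natDegree_eq_zero e2]
      simp [Polynomial.coeff_derivative]
    rw [← e1]
    refine ((p (J y)).hasDerivWithinAt y (Ici y)).congr_of_eventuallyEq ?_
      (hps _ y ⟨hJ1 y hy, (hJ2 y hy).le⟩)
    filter_upwards [Icc_mem_nhdsGE (hJ2 y hy)] with z hz
    exact hps _ z ⟨(hJ1 y hy).trans hz.1, hz.2⟩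
  have hcont : ContinuousOn s (Icc 0 1) := hc.continuousOn
  have hex : ∀ i < m, ∃ ξ ∈ Ico (x i) (x (i + 1)),
      0 < (s (x (i + 1)) - s (x i)) * (p (J ξ)).coeff 1 := by
    intro i hi
    have hne : s (x (i + 1)) - s (x i) ≠ 0 := by
      intro h
      rcases le_or_gt (i + 2) m with h2 | h2
      · have := hz i h2
        rw [h] at this
        simp at this
      · obtain ⟨i, rfl⟩ : ∃ j, i = j + 1 := ⟨i - 1, by omega⟩
        have := hz i (by omega)
        rw [h] at this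
        simp at this
    by_contra hcon
    push Not at hcon
    set d := s (x (i + 1)) - s (x i) with hd
    have hsub : Icc (x i) (x (i + 1)) ⊆ Icc (0 : ℝ) 1 :=
      Icc_subset_Icc (hx1 i (by omega)).1 (hx1 (i + 1) (by omega)).2
    have hsub' : Ico (x i) (x (i + 1)) ⊆ Ico (0 : ℝ) 1 :=
      Ico_subset_Ico (hx1 i (by omega)).1 (hx1 (i + 1) (by omega)).2
    have := image_le_of_deriv_right_le_deriv_boundary (f := fun y ↦ d * s y)
      (f' := fun y ↦ d * (p (J y)).coeff 1) (a := x i) (b := x (i + 1))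
      (continuousOn_const.mul (hcont.mono hsub))
      (fun y hy ↦ (hder y (hsub' hy)).const_mul d) (B := fun _ ↦ d * s (x i)) (B' := fun _ ↦ 0)
      le_rfl continuousOn_const (fun y _ ↦ hasDerivWithinAt_const _ _ _) hcon
      ⟨(hx i hi).le, le_rfl⟩
    have h3 : 0 < d * d := mul_self_pos.2 hne
    nlinarith
  choose! ξ hξ hξ' using hex
  have hξm : ∀ i < m, ξ i ∈ Ico (0 : ℝ) 1 := fun i hi ↦
    ⟨(hx1 i (by omega)).1.trans (hξ i hi).1, (hξ i hi).2.trans_le (hx1 (i + 1) (by omega)).2⟩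
  have hstep : ∀ i, i + 2 ≤ m → J (ξ i) < J (ξ (i + 1)) := by
    intro i hi
    have e1 : ξ i < ξ (i + 1) := (hξ i (by omega)).2.trans_le (hξ (i + 1) (by omega)).1
    have e2 : (J (ξ i)).castSucc < (J (ξ (i + 1))).succ := by
      rw [← ht.lt_iff_lt]
      exact ((hJ1 _ (hξm i (by omega))).trans_lt e1).trans (hJ2 _ (hξm (i + 1) (by omega)))
    have e3 : J (ξ i) ≤ J (ξ (i + 1)) := Fin.castSucc_lt_succ_iff.1 e2
    refine lt_of_le_of_ne e3 fun he ↦ ?_
    have a1 := hξ' i (by omega)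
    have a2 := hξ' (i + 1) (by omega)
    have a3 := hz i hi
    rw [he] at a1
    generalize (p (J (ξ (i + 1)))).coeff 1 = c at *
    have a4 := mul_pos a1 a2
    nlinarith [mul_self_nonneg c]
  have hfin : ∀ i < m, i ≤ (J (ξ i) : ℕ) := by
    intro i hi
    induction i with
    | zero => omega
    | succ i ih =>
      have := ih (by omega)
      have h2 : (J (ξ i) : ℕ) < J (ξ (i + 1)) := hstep i (by omega)
      omega
  have := hfin (m - 1) (by omega)
  have := (J (ξ (m - 1))).isLt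
  omega

theorem zig_le {k n m : ℕ} {s : ℝ → ℝ} (h : IsSpline (k + 1) n s) (hz : Zig s m) : m ≤ n + k := by
  induction k generalizing m s with
  | zero => exact zig_one h hz
  | succ k ih =>
    rcases m with _ | m
    · omega
    have := ih h.deriv (hz.deriv (h.1.differentiableOn (by norm_cast; omega)))
    omega

/-- many peaks force a long zigzag -/
lemma zig_of_peaks {f : ℝ → ℝ} (T : Finset ℝ) (hT : ∀ t ∈ T, t ∈ Icc (0 : ℝ) 1)
    (hne : T.Nonempty)
    (h : ∀ s ∈ T, ∀ u ∈ T, s < u → ∃ v ∈ Icc s u, f v < f s ∧ f v < f u) :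
    Zig f (2 * (T.card - 1)) := by
  obtain ⟨M, hM⟩ : ∃ M, T.card = M + 1 := ⟨T.card - 1, by have := hne.card_pos; omega⟩
  set e := T.orderEmbOfFin hM with he
  set τ : ℕ → ℝ := fun i ↦ if hi : i < M + 1 then e ⟨i, hi⟩ else 0 with hτ
  have hτT : ∀ i ≤ M, τ i ∈ T := by
    intro i hi
    simp only [hτ, dif_pos (Nat.lt_succ_of_le hi)]
    exact T.orderEmbOfFin_mem hM _
  have hτm : ∀ i < M, τ i < τ (i + 1) := by
    intro i hi
    simp only [hτ, dif_pos (show i < M + 1 by omega), dif_pos (show i + 1 < M + 1 by omega)]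
    exact e.strictMono (by simp [Fin.lt_def])
  have hex : ∀ i < M, ∃ v ∈ Icc (τ i) (τ (i + 1)), f v < f (τ i) ∧ f v < f (τ (i + 1)) :=
    fun i hi ↦ h _ (hτT i hi.le) _ (hτT (i + 1) hi) (hτm i hi)
  choose! v hv hv1 hv2 using hex
  have hv3 : ∀ i < M, τ i < v i := fun i hi ↦
    lt_of_le_of_ne (hv i hi).1 fun h ↦ by have := hv1 i hi; rw [← h] at this; exact lt_irrefl _ this
  have hv4 : ∀ i < M, v i < τ (i + 1) := fun i hi ↦
    lt_of_le_of_ne (hv i hi).2 fun h ↦ by have := hv2 i hi; rw [h] at this; exact lt_irrefl _ this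
  rw [hM, Nat.add_sub_cancel]
  set x : ℕ → ℝ := fun i ↦ if i % 2 = 0 then τ (i / 2) else v (i / 2) with hx
  have hx0 : ∀ j, x (2 * j) = τ j := fun j ↦ by simp [hx]
  have hx1 : ∀ j, x (2 * j + 1) = v j := fun j ↦ by
    have e1 : (2 * j + 1) % 2 = 1 := by omega
    have e2 : (2 * j + 1) / 2 = j := by omega
    simp [hx, e1, e2]
  refine ⟨x, fun i hi ↦ ?_, fun i hi ↦ ?_, fun i hi ↦ ?_⟩
  · obtain ⟨j, rfl | rfl⟩ := Nat.even_or_odd' i
    · rw [hx0, hx1]; exact hv3 j (by omega)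
    · rw [show 2 * j + 1 + 1 = 2 * (j + 1) by ring, hx0, hx1]; exact hv4 j (by omega)
  · obtain ⟨j, rfl | rfl⟩ := Nat.even_or_odd' i
    · rw [hx0]; exact hT _ (hτT j (by omega))
    · rw [hx1]
      exact ⟨(hT _ (hτT j (by omega))).1.trans (hv j (by omega)).1,
        (hv j (by omega)).2.trans (hT _ (hτT (j + 1) (by omega))).2⟩
  · obtain ⟨j, rfl | rfl⟩ := Nat.even_or_odd' i
    · rw [show 2 * j + 2 = 2 * (j + 1) by ring, hx0, hx0, hx1]
      exact mul_neg_of_neg_of_pos (sub_neg.2 (hv1 j (by omega))) (sub_pos.2 (hv2 j (by omega)))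
    · rw [show 2 * j + 1 + 1 = 2 * (j + 1) by ring, show 2 * j + 1 + 2 = 2 * (j + 1) + 1 by ring,
        hx0, hx1, hx1]
      exact mul_neg_of_pos_of_neg (sub_pos.2 (hv2 j (by omega)))
        (sub_neg.2 (hv1 (j + 1) (by omega)))

end Pool.Agent.Lib.MP_04cb70_an
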